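import Pool.Agent.J4H78.HG.Stm2

set_option autoImplicit false

/-! Piece FEJ of project HG2 (statement of helper78): the Fejer kernel. -/

namespace Pool.Agent.J4H52.HG

open Complex Finset
open Pool.Agent.J4H78.HG (fej S_FEJ)

/-- the exponential `e(k θ)` -/
noncomputable def ek (θ : ℝ) (k : ℤ) : ℂ := Complex.exp (((2 * Real.pi * k * θ : ℝ) : ℂ) * I)

theorem ek_add (θ : ℝ) (a b : ℤ) : ek θ (a + b) = ek θ a * ek θ b := by
  unfold ek
  rw [← Complex.exp_add]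
  congr 1
  push_cast
  ring

theorem ek_zero (θ : ℝ) : ek θ 0 = 1 := by
  unfold ek
  simp

theorem ek_conj (θ : ℝ) (a : ℤ) : (starRingEnd ℂ) (ek θ a) = ek θ (-a) := by
  unfold ek
  rw [← Complex.exp_conj, map_mul, Complex.conj_ofReal, Complex.conj_I]
  congr 1
  push_cast
  ring

theorem ek_norm (θ : ℝ) (a : ℤ) : ‖ek θ a‖ = 1 := by
  unfold ek
  exact Complex.norm_exp_ofReal_mul_I _

theorem Icc_succ (n : ℕ) : Finset.Icc (-((n + 1 : ℕ) : ℤ)) ((n + 1 : ℕ) : ℤ) =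
    insert ((n : ℤ) + 1) (insert (-((n : ℤ) + 1)) (Finset.Icc (-(n : ℤ)) n)) := by
  ext k
  simp only [Finset.mem_Icc, Finset.mem_insert]
  push_cast
  omega

theorem sum_succ (n : ℕ) (f : ℤ → ℂ) : ∑ k ∈ Finset.Icc (-((n + 1 : ℕ) : ℤ)) ((n + 1 : ℕ) : ℤ), f k =
    f ((n : ℤ) + 1) + (f (-((n : ℤ) + 1)) + ∑ k ∈ Finset.Icc (-(n : ℤ)) n, f k) := by
  rw [Icc_succ, Finset.sum_insert, Finset.sum_insert]
  · simp only [Finset.mem_Icc, not_and, not_le]
    omega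
  · simp only [Finset.mem_insert, Finset.mem_Icc, not_or]
    omega

theorem A_eq (θ : ℝ) : ∀ n : ℕ, ∑ k ∈ Finset.Icc (-(n : ℤ)) n, ek θ k =
    1 + ∑ i ∈ Finset.range n, (ek θ ((i : ℤ) + 1) + ek θ (-((i : ℤ) + 1))) := by
  intro n
  induction n with
  | zero => simp [ek_zero]
  | succ n ih =>
    rw [sum_succ, ih, Finset.sum_range_succ]
    ring

/-- the sum of the geometric series -/
noncomputable def Sn (θ : ℝ) (n : ℕ) : ℂ := ∑ j ∈ Finset.range (n + 1), ek θ j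

theorem Sn_neg (θ : ℝ) (n : ℕ) : Sn θ n * ek θ (-((n : ℤ) + 1)) =
    ∑ i ∈ Finset.range (n + 1), ek θ (-((i : ℤ) + 1)) := by
  unfold Sn
  rw [Finset.sum_mul, ← Finset.sum_range_reflect]
  refine Finset.sum_congr rfl fun i hi => ?_
  have hi' := Finset.mem_range.1 hi
  rw [← ek_add]
  congr 1
  have : ((n + 1 - 1 - i : ℕ) : ℤ) = (n : ℤ) - i := by omega
  rw [this]
  ring

theorem Sn_pos (θ : ℝ) (n : ℕ) : ek θ ((n : ℤ) + 1) * (starRingEnd ℂ) (Sn θ n) =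
    ∑ i ∈ Finset.range (n + 1), ek θ ((i : ℤ) + 1) := by
  have h := congrArg (starRingEnd ℂ) (Sn_neg θ n)
  rw [map_mul, ek_conj, neg_neg, map_sum] at h
  rw [mul_comm, h]
  refine Finset.sum_congr rfl fun i _ => ?_
  rw [ek_conj, neg_neg]

theorem main_id (θ : ℝ) : ∀ n : ℕ, ∑ k ∈ Finset.Icc (-(n : ℤ)) n, ((((n : ℝ) + 1 - |(k : ℝ)|) : ℝ) : ℂ) * ek θ k =
    Sn θ n * (starRingEnd ℂ) (Sn θ n) := by
  intro n
  induction n with
  | zero => simp [Sn, ek_zero]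
  | succ n ih =>
    have h1 : ∑ k ∈ Finset.Icc (-(n : ℤ)) n, (((((n + 1 : ℕ) : ℝ) + 1 - |(k : ℝ)|) : ℝ) : ℂ) * ek θ k =
        ∑ k ∈ Finset.Icc (-(n : ℤ)) n, ((((n : ℝ) + 1 - |(k : ℝ)|) : ℝ) : ℂ) * ek θ k +
        ∑ k ∈ Finset.Icc (-(n : ℤ)) n, ek θ k := by
      rw [← Finset.sum_add_distrib]
      refine Finset.sum_congr rfl fun k _ => ?_
      push_cast
      ring
    have hn : (0 : ℝ) < (n : ℝ) + 1 := by positivity
    have a1 : |(((n : ℤ) + 1 : ℤ) : ℝ)| = (n : ℝ) + 1 := by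
      push_cast
      exact abs_of_pos hn
    have a2 : |((-((n : ℤ) + 1) : ℤ) : ℝ)| = (n : ℝ) + 1 := by
      push_cast
      rw [abs_of_neg (by linarith)]
      ring
    rw [sum_succ, h1, ih, A_eq, a1, a2]
    have h2 : Sn θ (n + 1) = Sn θ n + ek θ ((n : ℤ) + 1) := by
      unfold Sn
      rw [Finset.sum_range_succ _ (n + 1)]
      push_cast
      rfl
    have h3 : ek θ ((n : ℤ) + 1) * ek θ (-((n : ℤ) + 1)) = 1 := by
      rw [← ek_add, add_neg_cancel, ek_zero]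
    have h4 := Sn_neg θ n
    have h5 := Sn_pos θ n
    rw [h2, map_add, ek_conj]
    have e1 : (Sn θ n + ek θ ((n : ℤ) + 1)) * ((starRingEnd ℂ) (Sn θ n) + ek θ (-((n : ℤ) + 1))) =
        Sn θ n * (starRingEnd ℂ) (Sn θ n) + Sn θ n * ek θ (-((n : ℤ) + 1)) +
          ek θ ((n : ℤ) + 1) * (starRingEnd ℂ) (Sn θ n) + ek θ ((n : ℤ) + 1) * ek θ (-((n : ℤ) + 1)) := by
      ring
    rw [e1, h3, h4, h5, Finset.sum_range_succ, Finset.sum_range_succ, Finset.sum_add_distrib]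
    push_cast
    ring

theorem fej_eq (n : ℕ) (θ : ℝ) : fej n θ = ((‖Sn θ n‖ ^ 2 / ((n : ℝ) + 1) : ℝ) : ℂ) := by
  have hn : ((n : ℂ) + 1) ≠ 0 := by exact_mod_cast Nat.succ_ne_zero n
  have hn' : ((n : ℝ) + 1) ≠ 0 := by exact_mod_cast Nat.succ_ne_zero n
  have h := main_id θ n
  rw [Complex.mul_conj, Complex.normSq_eq_norm_sq] at h
  rw [Complex.ofReal_div, ← h]
  unfold fej
  rw [Finset.sum_div]
  refine Finset.sum_congr rfl fun k _ => ?_
  show _ * ek θ k = _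
  push_cast
  field_simp

theorem Sn_bound (n : ℕ) (θ d : ℝ) (hd : 0 < d) (h : ∀ j : ℤ, d ≤ |θ - j|) : ‖Sn θ n‖ ≤ 1 / (2 * d) := by
  have h1 : Sn θ n * (ek θ 1 - 1) = ek θ ((n : ℤ) + 1) - 1 := by
    have hg : ∀ n : ℕ, Sn θ n * (ek θ 1 - 1) = ek θ ((n : ℤ) + 1) - 1 := by
      intro n
      induction n with
      | zero => simp [Sn, ek_zero]
      | succ n ih =>
        have h2 : Sn θ (n + 1) = Sn θ n + ek θ ((n : ℤ) + 1) := by
          unfold Sn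
          rw [Finset.sum_range_succ _ (n + 1)]
          push_cast
          rfl
        rw [h2, add_mul, ih]
        have h3 : ek θ (((n + 1 : ℕ) : ℤ) + 1) = ek θ ((n : ℤ) + 1) * ek θ 1 := by
          rw [← ek_add]
          push_cast
          rfl
        rw [h3]
        ring
    exact hg n
  have h2 : ‖ek θ ((n : ℤ) + 1) - 1‖ ≤ 2 := by
    refine (norm_sub_le _ _).trans ?_
    rw [ek_norm, norm_one]
    norm_num
  have h3 : 4 * d ≤ ‖ek θ 1 - 1‖ := by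
    obtain ⟨y, hy⟩ : ∃ y, y = θ - round θ := ⟨_, rfl⟩
    have hy1 : |y| ≤ 1 / 2 := by rw [hy]; exact abs_sub_round θ
    have hy2 : d ≤ |y| := by rw [hy]; exact h (round θ)
    have e1 : ek θ 1 = Complex.exp (I * ((2 * Real.pi * y : ℝ) : ℂ)) := by
      unfold ek
      have e2 : ((2 * Real.pi * ((1 : ℤ) : ℝ) * θ : ℝ) : ℂ) * I =
          I * ((2 * Real.pi * y : ℝ) : ℂ) + (round θ : ℤ) * (2 * (Real.pi : ℂ) * I) := by
        rw [hy]
        push_cast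
        ring
      rw [e2, Complex.exp_add, Complex.exp_int_mul_two_pi_mul_I, mul_one]
    rw [e1, Complex.norm_exp_I_mul_ofReal_sub_one]
    have e3 : 2 * Real.pi * y / 2 = Real.pi * y := by ring
    rw [e3, norm_mul, Real.norm_eq_abs, Real.norm_eq_abs, abs_of_pos (show (0 : ℝ) < 2 by norm_num)]
    have hpi := Real.pi_pos
    have h4 : |Real.pi * y| ≤ Real.pi / 2 := by
      rw [abs_mul, abs_of_pos hpi]
      nlinarith
    have h5 := Real.mul_abs_le_abs_sin h4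
    rw [abs_mul, abs_of_pos hpi] at h5
    have e4 : 2 / Real.pi * (Real.pi * |y|) = 2 * |y| := by
      field_simp
    rw [e4] at h5
    linarith
  have h4 : ‖Sn θ n‖ * ‖ek θ 1 - 1‖ ≤ 2 := by
    rw [← norm_mul, h1]
    exact h2
  rw [le_div_iff₀ (by positivity)]
  have h5 : ‖Sn θ n‖ * (4 * d) ≤ 2 := (mul_le_mul_of_nonneg_left h3 (norm_nonneg _)).trans h4
  linarith

theorem t_FEJ : S_FEJ := by
  intro n θ
  have hn : (0 : ℝ) < (n : ℝ) + 1 := by positivity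
  rw [fej_eq]
  refine ⟨Complex.ofReal_im _, ?_, ?_⟩
  · rw [Complex.ofReal_re]
    positivity
  · intro d hd h
    rw [Complex.ofReal_re, div_le_div_iff₀ hn (by positivity)]
    have h1 := Sn_bound n θ d hd h
    have h2 : ‖Sn θ n‖ * (2 * d) ≤ 1 := by
      rwa [le_div_iff₀ (by positivity)] at h1
    have h3 : (‖Sn θ n‖ * (2 * d)) ^ 2 ≤ 1 := pow_le_one₀ (by positivity) h2
    have h4 : ‖Sn θ n‖ ^ 2 * (4 * (n + 1) * d ^ 2) = (‖Sn θ n‖ * (2 * d)) ^ 2 * (n + 1) := by ring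
    rw [h4]
    exact mul_le_mul_of_nonneg_right h3 hn.le

end Pool.Agent.J4H52.HG
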