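import Pool.Agent.J4H78.HG.Stm3
import Pool.Agent.J4H52.HG.Fej

set_option autoImplicit false

/-! Piece MAJ of project HG3 (statement of helper78): an integral of the Fejer kernel over an interval. -/

namespace Pool.Agent.J4H52.HG

open Complex Finset
open Pool.Agent.J4H78.HG (fej S_FEJ tp S_MAJ)

theorem ek_sub (θ s : ℝ) (k : ℤ) : ek (θ - s) k = ek θ k * ek s (-k) := by
  unfold ek
  rw [← Complex.exp_add]
  congr 1
  push_cast
  ring

theorem ek_cont (k : ℤ) : Continuous fun θ : ℝ => ek θ k := by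
  unfold ek
  fun_prop

theorem fej_def (n : ℕ) (θ : ℝ) : fej n θ =
    ∑ k ∈ Finset.Icc (-(n : ℤ)) n, ((1 - |(k : ℝ)| / (n + 1) : ℝ) : ℂ) * ek θ k := rfl

theorem fej_cont (n : ℕ) : Continuous fun θ : ℝ => fej n θ := by
  simp only [fej_def]
  exact continuous_finsetSum _ fun k _ => continuous_const.mul (ek_cont k)

theorem int_ek (k : ℤ) (hk : k ≠ 0) (u : ℝ) : ∫ x in u..(u + 1), ek x k = 0 := by
  have hc : (2 * (Real.pi : ℂ) * k * I) ≠ 0 := by
    have h1 : (Real.pi : ℂ) ≠ 0 := by exact_mod_cast Real.pi_ne_zero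
    have h2 : (k : ℂ) ≠ 0 := by exact_mod_cast hk
    exact mul_ne_zero (mul_ne_zero (mul_ne_zero two_ne_zero h1) h2) I_ne_zero
  have h1 : ∀ x : ℝ, ek x k = Complex.exp ((2 * (Real.pi : ℂ) * k * I) * x) := by
    intro x
    unfold ek
    congr 1
    push_cast
    ring
  simp only [h1]
  rw [integral_exp_mul_complex hc]
  have h2 : Complex.exp ((2 * (Real.pi : ℂ) * k * I) * ((u + 1 : ℝ) : ℂ)) =
      Complex.exp ((2 * (Real.pi : ℂ) * k * I) * (u : ℂ)) := by
    have e : (2 * (Real.pi : ℂ) * k * I) * ((u + 1 : ℝ) : ℂ) =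
        (2 * (Real.pi : ℂ) * k * I) * (u : ℂ) + (k : ℤ) * (2 * (Real.pi : ℂ) * I) := by
      push_cast
      ring
    rw [e, Complex.exp_add, Complex.exp_int_mul_two_pi_mul_I, mul_one]
  rw [h2, sub_self, zero_div]

theorem int_fej (n : ℕ) (u : ℝ) : ∫ x in u..(u + 1), fej n x = 1 := by
  simp only [fej_def]
  have hi : ∀ k ∈ Finset.Icc (-(n : ℤ)) n, IntervalIntegrable
      (fun x : ℝ => ((1 - |(k : ℝ)| / (n + 1) : ℝ) : ℂ) * ek x k) MeasureTheory.volume u (u + 1) :=
    fun k _ => (continuous_const.mul (ek_cont k)).intervalIntegrable _ _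
  rw [intervalIntegral.integral_finsetSum hi]
  simp only [intervalIntegral.integral_const_mul]
  rw [Finset.sum_eq_single (0 : ℤ)]
  · have h0 : ∀ x : ℝ, ek x 0 = 1 := ek_zero
    simp [h0]
  · intro k _ hk
    rw [int_ek k hk, mul_zero]
  · intro h
    exact absurd (Finset.mem_Icc.2 ⟨by omega, by omega⟩) h

theorem t_MAJ : S_FEJ → S_MAJ := by
  intro hFEJ n a b r hr hab hl
  have hn : (0 : ℝ) < (n : ℝ) + 1 := by positivity
  refine ⟨fun k => if k ∈ Finset.Icc (-(n : ℤ)) n then
    ((1 - |(k : ℝ)| / (n + 1) : ℝ) : ℂ) * ∫ s in (a - r)..(b + r), ek s (-k) else 0, ?_, ?_, ?_⟩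
  · have h0 : (0 : ℤ) ∈ Finset.Icc (-(n : ℤ)) n := Finset.mem_Icc.2 ⟨by omega, by omega⟩
    have h1 : ∀ x : ℝ, ek x (-0) = 1 := fun x => by rw [neg_zero]; exact ek_zero x
    simp only [h0, if_true, h1]
    rw [intervalIntegral.integral_const]
    simp only [Int.cast_zero, abs_zero, zero_div, sub_zero, Complex.ofReal_one, one_mul,
      Complex.real_smul, mul_one]
    congr 1
    ring
  · intro k
    by_cases hk : k ∈ Finset.Icc (-(n : ℤ)) n
    · simp only [hk, if_true]
      rw [norm_mul]
      have hk' := Finset.mem_Icc.1 hk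
      have h1 : |(k : ℝ)| ≤ (n : ℝ) + 1 := by
        rw [abs_le]
        constructor
        · have : (-(n : ℤ) : ℝ) ≤ (k : ℝ) := by exact_mod_cast hk'.1
          push_cast at this
          linarith
        · have : (k : ℝ) ≤ ((n : ℤ) : ℝ) := by exact_mod_cast hk'.2
          push_cast at this
          linarith
      have h2 : ‖((1 - |(k : ℝ)| / (n + 1) : ℝ) : ℂ)‖ ≤ 1 := by
        rw [Complex.norm_real, Real.norm_eq_abs, abs_le]
        have h3 : |(k : ℝ)| / (n + 1) ≤ 1 := by
          rw [div_le_one hn]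
          exact h1
        have h4 : 0 ≤ |(k : ℝ)| / (n + 1) := by positivity
        constructor <;> linarith
      have h3 : ‖∫ s in (a - r)..(b + r), ek s (-k)‖ ≤ 1 := by
        refine (intervalIntegral.norm_integral_le_of_norm_le_const (C := 1) fun x _ => ?_).trans ?_
        · exact (ek_norm x (-k)).le
        · rw [one_mul, abs_of_nonneg (by linarith)]
          linarith
      exact mul_le_one₀ h2 (norm_nonneg _) h3
    · simp only [hk, if_false, norm_zero]
      exact zero_le_one
  · intro θ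
    have h1 : tp (fun k => if k ∈ Finset.Icc (-(n : ℤ)) n then
        ((1 - |(k : ℝ)| / (n + 1) : ℝ) : ℂ) * ∫ s in (a - r)..(b + r), ek s (-k) else 0) n θ =
        ∫ s in (a - r)..(b + r), fej n (θ - s) := by
      simp only [fej_def, ek_sub]
      have hi : ∀ k ∈ Finset.Icc (-(n : ℤ)) n, IntervalIntegrable
          (fun s : ℝ => ((1 - |(k : ℝ)| / (n + 1) : ℝ) : ℂ) * (ek θ k * ek s (-k)))
          MeasureTheory.volume (a - r) (b + r) :=
        fun k _ => (continuous_const.mul (continuous_const.mul (ek_cont (-k)))).intervalIntegrable _ _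
      rw [intervalIntegral.integral_finsetSum hi]
      unfold tp
      refine Finset.sum_congr rfl fun k hk => ?_
      simp only [hk, if_true, intervalIntegral.integral_const_mul]
      show _ * ek θ k = _
      ring
    have h2 : ∀ x, fej n x = (((fej n x).re : ℝ) : ℂ) := fun x =>
      Complex.ext (by simp) (by simp [(hFEJ n x).1])
    have hre : Continuous fun x : ℝ => (fej n x).re := Complex.continuous_re.comp (fej_cont n)
    have h3 : ∫ s in (a - r)..(b + r), fej n (θ - s) =
        ((∫ x in (θ - (b + r))..(θ - (a - r)), (fej n x).re : ℝ) : ℂ) := by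
      rw [intervalIntegral.integral_comp_sub_left (fun x => fej n x) θ,
        ← intervalIntegral.integral_ofReal]
      refine intervalIntegral.integral_congr fun x _ => ?_
      exact h2 x
    rw [h1, h3, Complex.ofReal_im, Complex.ofReal_re]
    refine ⟨rfl, intervalIntegral.integral_nonneg (by linarith) fun x _ => (hFEJ n x).2.1, ?_⟩
    intro j hj1 hj2
    obtain ⟨u, hu⟩ : ∃ u, u = θ - (b + r) := ⟨_, rfl⟩
    obtain ⟨v, hv⟩ : ∃ v, v = θ - (a - r) := ⟨_, rfl⟩
    rw [← hu, ← hv]
    have hM : 0 ≤ 1 / (4 * ((n : ℝ) + 1) * r ^ 2) := by positivity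
    have h4 : ∫ x in u..(u + 1), (fej n x).re = 1 := by
      have h5 := int_fej n u
      rw [intervalIntegral.integral_congr (g := fun x => (((fej n x).re : ℝ) : ℂ)) fun x _ => h2 x,
        intervalIntegral.integral_ofReal] at h5
      exact_mod_cast h5
    have h5 := intervalIntegral.integral_add_adjacent_intervals
      (hre.intervalIntegrable u v) (hre.intervalIntegrable v (u + 1))
      (μ := MeasureTheory.volume)
    have h6 : ∫ x in v..(u + 1), (fej n x).re ≤ ∫ x in v..(u + 1), 1 / (4 * ((n : ℝ) + 1) * r ^ 2) := by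
      refine intervalIntegral.integral_mono_on (by linarith) (hre.intervalIntegrable _ _)
        (continuous_const.intervalIntegrable _ _) fun x hx => ?_
      refine (hFEJ n x).2.2 r hr fun i => ?_
      have hx1 := hx.1
      have hx2 := hx.2
      rcases le_or_gt i j with hij | hij
      · have : (i : ℝ) ≤ j := by exact_mod_cast hij
        exact le_trans (by linarith) (le_abs_self _)
      · have : (j : ℝ) + 1 ≤ i := by exact_mod_cast hij
        exact le_trans (by linarith) (neg_le_abs _)
    rw [intervalIntegral.integral_const, smul_eq_mul] at h6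
    have h7 : (u + 1 - v) * (1 / (4 * ((n : ℝ) + 1) * r ^ 2)) ≤ 1 * (1 / (4 * ((n : ℝ) + 1) * r ^ 2)) :=
      mul_le_mul_of_nonneg_right (by linarith) hM
    linarith

end Pool.Agent.J4H52.HG
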